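import Pool.Agent.W788.BK.Stm

set_option autoImplicit false

open scoped BigOperators Matrix
open MeasureTheory

namespace Pool.Agent.W351.BK

theorem core {ι : Type} [Fintype ι] (N δ η s2 g ε E : ℝ) (a J : ι → ℝ) (h : ι → ι → ℝ) (S : ℝ)
    (M : ι → ℂ) (hN : 0 < N) (hδ : 0 < δ) (hη : 0 < η) (hs : 0 ≤ s2) (hε : ε ≤ 1 / 2)
    (hJ : ∀ k, δ ≤ J k) (him : ∀ k, 0 ≤ (M k).im) (hM : ∀ k, ‖M k‖ ≤ η⁻¹)
    (hh : ∀ k p, h k p ≤ 1) (hS : ∀ k, ∑ p, (1 - h k p) = S)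
    (hS2 : s2 * S ≤ η ^ 2 * δ ^ 2 / 4 * N)
    (hg : ∀ E' : ℝ, ∑ k, (Real.sqrt ((a k - E') ^ 2 + (η * δ) ^ 2))⁻¹ ≤ g * N)
    (heq : ∀ k, ‖((((a k - E) / J k : ℝ) : ℂ) - (η : ℂ) * Complex.I) * M k -
      (s2 : ℂ) * (∑ p, ((N⁻¹ * h k p * (J k * J p)⁻¹ : ℝ) : ℂ) * M p) * M k - 1‖ ≤ ε) :
    ‖((N : ℝ) : ℂ)⁻¹ * ∑ k, ((J k : ℝ) : ℂ)⁻¹ * M k‖ ≤ 2 * g := by
  have hJ0 : ∀ k, 0 < J k := fun k => hδ.trans_le (hJ k)
  obtain ⟨m, hm⟩ : ∃ m : ℂ, m = ((N⁻¹ : ℝ) : ℂ) * ∑ k, (((J k)⁻¹ : ℝ) : ℂ) * M k := ⟨_, rfl⟩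
  have hm' : ((N : ℝ) : ℂ)⁻¹ * ∑ k, ((J k : ℝ) : ℂ)⁻¹ * M k = m := by
    rw [hm, Complex.ofReal_inv]
    congr 1
    refine Finset.sum_congr rfl fun k _ => ?_
    rw [Complex.ofReal_inv]
  rw [hm']
  have hmim : 0 ≤ m.im := by
    rw [hm, Complex.im_ofReal_mul, Complex.im_sum]
    refine mul_nonneg (inv_nonneg.2 hN.le) (Finset.sum_nonneg fun k _ => ?_)
    rw [Complex.im_ofReal_mul]
    exact mul_nonneg (inv_nonneg.2 (hJ0 k).le) (him k)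
  obtain ⟨l, hl⟩ : ∃ l : ι → ℂ, l = fun k => ((N⁻¹ : ℝ) : ℂ) *
    ∑ p, (((1 - h k p) * (J p)⁻¹ : ℝ) : ℂ) * M p := ⟨_, rfl⟩
  have hlk : ∀ k, ‖l k‖ ≤ N⁻¹ * (S * (δ⁻¹ * η⁻¹)) := by
    intro k
    rw [hl]
    simp only
    rw [norm_mul, Complex.norm_real, Real.norm_eq_abs, abs_of_pos (inv_pos.2 hN)]
    refine mul_le_mul_of_nonneg_left ?_ (inv_nonneg.2 hN.le)
    rw [← hS k, Finset.sum_mul]
    refine (norm_sum_le _ _).trans (Finset.sum_le_sum fun p _ => ?_)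
    have h1 : 0 ≤ 1 - h k p := by have := hh k p; linarith
    rw [norm_mul, Complex.norm_real, Real.norm_eq_abs,
      abs_of_nonneg (mul_nonneg h1 (inv_nonneg.2 (hJ0 p).le)), mul_assoc]
    refine mul_le_mul_of_nonneg_left ?_ h1
    exact mul_le_mul (inv_anti₀ hδ (hJ p)) (hM p) (norm_nonneg _) (inv_nonneg.2 hδ.le)
  have hsl : ∀ k, ‖(s2 : ℂ) * l k‖ ≤ η * δ / 4 := by
    intro k
    rw [norm_mul, Complex.norm_real, Real.norm_eq_abs, abs_of_nonneg hs]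
    calc s2 * ‖l k‖ ≤ s2 * (N⁻¹ * (S * (δ⁻¹ * η⁻¹))) := mul_le_mul_of_nonneg_left (hlk k) hs
      _ = (s2 * S) * (N⁻¹ * (δ⁻¹ * η⁻¹)) := by ring
      _ ≤ (η ^ 2 * δ ^ 2 / 4 * N) * (N⁻¹ * (δ⁻¹ * η⁻¹)) :=
        mul_le_mul_of_nonneg_right hS2 (by positivity)
      _ = η * δ / 4 := by field_simp
  have hsum : ∀ k, ∑ p, ((N⁻¹ * h k p * (J k * J p)⁻¹ : ℝ) : ℂ) * M p =
      (((J k)⁻¹ : ℝ) : ℂ) * (m - l k) := by
    intro k
    rw [hm, hl]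
    simp only
    rw [← mul_sub, ← Finset.sum_sub_distrib, Finset.mul_sum, Finset.mul_sum]
    refine Finset.sum_congr rfl fun p _ => ?_
    rw [mul_inv]
    push_cast
    ring
  -- the main estimate
  have key : ∀ k, (J k)⁻¹ * ‖M k‖ ≤
      2 * (Real.sqrt ((a k - (E + s2 * m.re)) ^ 2 + (η * δ) ^ 2))⁻¹ := by
    intro k
    obtain ⟨j, hj⟩ : ∃ j, j = Real.sqrt ((a k - (E + s2 * m.re)) ^ 2 + (η * δ) ^ 2) := ⟨_, rfl⟩
    rw [← hj]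
    have hηδ : 0 < η * δ := mul_pos hη hδ
    have hj1 : η * δ ≤ j := by
      rw [hj]
      apply Real.le_sqrt_of_sq_le
      have := sq_nonneg (a k - (E + s2 * m.re))
      linarith
    have hj0 : 0 < j := hηδ.trans_le hj1
    obtain ⟨D, hD⟩ : ∃ D : ℂ, D = ((a k - E : ℝ) : ℂ) - ((η * J k : ℝ) : ℂ) * Complex.I -
      (s2 : ℂ) * m + (s2 : ℂ) * l k := ⟨_, rfl⟩
    have hJc : ((J k : ℝ) : ℂ) ≠ 0 := by
      rw [Ne, Complex.ofReal_eq_zero]; exact (hJ0 k).ne'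
    have e1 : ((((a k - E) / J k : ℝ) : ℂ) - (η : ℂ) * Complex.I) * M k -
      (s2 : ℂ) * (∑ p, ((N⁻¹ * h k p * (J k * J p)⁻¹ : ℝ) : ℂ) * M p) * M k - 1 =
      D * ((((J k)⁻¹ : ℝ) : ℂ) * M k) - 1 := by
      rw [hsum k, hD]
      push_cast
      field_simp
      ring
    have h1 := heq k
    rw [e1] at h1
    have h2 : ‖D * ((((J k)⁻¹ : ℝ) : ℂ) * M k)‖ ≤ 3 / 2 := by
      calc ‖D * ((((J k)⁻¹ : ℝ) : ℂ) * M k)‖ =
            ‖(D * ((((J k)⁻¹ : ℝ) : ℂ) * M k) - 1) + 1‖ := by rw [sub_add_cancel]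
        _ ≤ ‖D * ((((J k)⁻¹ : ℝ) : ℂ) * M k) - 1‖ + ‖(1 : ℂ)‖ := norm_add_le _ _
        _ ≤ ε + 1 := by rw [norm_one]; linarith
        _ ≤ 3 / 2 := by linarith
    rw [norm_mul, norm_mul, Complex.norm_real, Real.norm_eq_abs,
      abs_of_pos (inv_pos.2 (hJ0 k))] at h2
    have h3 : j ≤ ‖D - (s2 : ℂ) * l k‖ := by
      have e2 : D - (s2 : ℂ) * l k = (((a k - (E + s2 * m.re)) : ℝ) : ℂ) +
          ((-(η * J k + s2 * m.im) : ℝ) : ℂ) * Complex.I := by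
        rw [hD]
        conv_lhs => rw [← Complex.re_add_im m]
        push_cast
        ring
      rw [e2, Complex.norm_add_mul_I, hj]
      apply Real.sqrt_le_sqrt
      have h4 : η * δ ≤ η * J k + s2 * m.im := by
        have := mul_le_mul_of_nonneg_left (hJ k) hη.le
        have := mul_nonneg hs hmim
        linarith
      have h5 : (η * δ) ^ 2 ≤ (η * J k + s2 * m.im) ^ 2 := by gcongr
      rw [neg_sq]
      linarith
    have h4 : j ≤ ‖D‖ + ‖(s2 : ℂ) * l k‖ := h3.trans (norm_sub_le _ _)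
    have h5 := hsl k
    have h6 : 3 / 4 * j ≤ ‖D‖ := by linarith
    have h7 : 0 ≤ (J k)⁻¹ * ‖M k‖ := mul_nonneg (inv_nonneg.2 (hJ0 k).le) (norm_nonneg _)
    have h8 : 3 / 4 * j * ((J k)⁻¹ * ‖M k‖) ≤ 3 / 2 :=
      (mul_le_mul_of_nonneg_right h6 h7).trans h2
    rw [← div_eq_mul_inv, le_div_iff₀ hj0]
    linarith
  -- the sum
  calc ‖m‖ = N⁻¹ * ‖∑ k, (((J k)⁻¹ : ℝ) : ℂ) * M k‖ := by
        rw [hm, norm_mul, Complex.norm_real, Real.norm_eq_abs, abs_of_pos (inv_pos.2 hN)]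
    _ ≤ N⁻¹ * ∑ k, (J k)⁻¹ * ‖M k‖ := by
        refine mul_le_mul_of_nonneg_left ?_ (inv_nonneg.2 hN.le)
        refine (norm_sum_le _ _).trans (Finset.sum_le_sum fun k _ => le_of_eq ?_)
        rw [norm_mul, Complex.norm_real, Real.norm_eq_abs, abs_of_pos (inv_pos.2 (hJ0 k))]
    _ ≤ N⁻¹ * ∑ k, 2 * (Real.sqrt ((a k - (E + s2 * m.re)) ^ 2 + (η * δ) ^ 2))⁻¹ := by
        refine mul_le_mul_of_nonneg_left ?_ (inv_nonneg.2 hN.le)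
        exact Finset.sum_le_sum fun k _ => key k
    _ ≤ N⁻¹ * (2 * (g * N)) := by
        refine mul_le_mul_of_nonneg_left ?_ (inv_nonneg.2 hN.le)
        rw [← Finset.mul_sum]
        exact mul_le_mul_of_nonneg_left (hg _) (by norm_num)
    _ = 2 * g := by field_simp

open Pool.Agent.W788.MFP.Four (T e NN adj K ft Op q NN_pos)
open Pool.Agent.W788.BK

/-- BK-MB -/
theorem mb : S_MB := by
  intro d L _ E δ θ η s2 g ε M hδ hη hs hε him hM hg hS heq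
  have hhi : ∀ P : T d L, hi θ P ≤ 1 := by
    intro P
    unfold hi
    split_ifs <;> norm_num
  refine core (NN d L) δ η s2 g ε E adj (JJ E δ) (fun k p => hi θ (k - p))
    (∑ P : T d L, (1 - hi θ P)) M NN_pos hδ hη hs hε ?_ him hM (fun k p => hhi _) ?_ hS hg heq
  · intro k
    unfold JJ
    apply Real.le_sqrt_of_sq_le
    have := sq_nonneg (adj k - E)
    linarith
  · intro k
    exact Equiv.sum_comp (Equiv.subLeft k) fun P : T d L => (1 - hi θ P)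

end Pool.Agent.W351.BK
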